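import Pool.Agent.Helper42.PW.Goals4
import Pool.Agent.Helper85.PP.DCND

/-!
# Project W (MP_fc6b1e_nt), packet W-W_CND: the weight of a class in terms of its labels
-/

set_option autoImplicit false

namespace Pool.Agent.Helper91.PW

open NumberField Polynomial Module IsDedekindDomain
open Pool.Agent.Helper51.RP Pool.Agent.Helper42.RD Pool.Agent.Helper42.PP Pool.Agent.Helper42.PP1
open Pool.Agent.Helper42.PB Pool.Agent.Helper11.PP Pool.Agent.Helper42.PW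
open Pool.Agent.Helper85.PP

theorem locS_mono {p : ℕ} {F : Type} [Field F] [NumberField F]
    {Z Z' : Set (HeightOneSpectrum (𝓞 F))} (h : Z ⊆ Z') {a : Fˣ} (ha : LocS p Z' a) :
    LocS p Z a := by
  obtain ⟨y, hy⟩ := ha
  exact ⟨y, fun W hW ↦ hy W (h hW)⟩

theorem w_cnd : Pool.Agent.Helper42.PW.W_CND := by
  intro p _ K K₁ _ _ _ _ _ ε S₀ S V Q aτ f hS₀ hVS hQ hf hτ
  classical
  obtain ⟨e, he1, he, hfe⟩ := hf
  set A : Set (HeightOneSpectrum (𝓞 K)) := {v | v ∈ S ∧ v ∉ S₀ ∧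
    ∃ W : HeightOneSpectrum (𝓞 K₁), Above W v ∧ ¬ (p : ℤ) ∣ ordv W (aτ : K₁)} with hA
  have hAf : A.Finite := S.finite_toSet.subset fun v hv ↦ hv.1
  refine ⟨e (clp p aτ) * ∏ᶠ v ∈ A, Ideal.absNorm v.asIdeal, ?_, ?_⟩
  · refine Nat.mul_pos (he1 _) ?_
    rw [finprod_mem_eq_finite_toFinset_prod _ hAf]
    refine Finset.prod_pos fun v _ ↦ Nat.pos_of_ne_zero fun h ↦ ?_
    exact v.ne_bot (Ideal.absNorm_eq_zero_iff.1 h)
  intro a b ha hloc hV hO hb
  set B : Finset (HeightOneSpectrum (𝓞 K)) := b.image (fun q ↦ q.1.1) with hB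
  have hinj : Set.InjOn (fun q : {q : HeightOneSpectrum (𝓞 K) × (ZMod p)ˣ // q.1 ∈ V} ↦ q.1.1)
      (b : Set _) := by
    intro q hq r hr hqr
    have h1 := (hb q).1 hq
    have h2 := (hb r).1 hr
    have hqr' : q.1.1 = r.1.1 := hqr
    rw [hqr'] at h1
    have h3 : q.1.2 = r.1.2 := Units.ext (h1.symm.trans h2)
    exact Subtype.ext (Prod.ext hqr' h3)
  have hset : {v : HeightOneSpectrum (𝓞 K) | ValC (clp p a) v ∧ v ∉ S₀} = A ∪ (B : Set _) := by
    ext v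
    simp only [Set.mem_ofPred_eq, Set.mem_union, hA, hB, Finset.coe_image, Set.mem_image,
      Finset.mem_coe]
    rw [valC_iff]
    by_cases hvS : v ∈ S
    · constructor
      · rintro ⟨⟨W, hW, hd⟩, hv0⟩
        exact Or.inl ⟨hvS, hv0, W, hW, fun h ↦ hd ((loc_dvd hloc ⟨v, hvS, hW⟩).2 h)⟩
      · rintro (⟨-, hv0, W, hW, hd⟩ | ⟨q, -, hq⟩)
        · exact ⟨⟨W, hW, fun h ↦ hd ((loc_dvd hloc ⟨v, hvS, hW⟩).1 h)⟩, hv0⟩
        · exact absurd hvS (hq ▸ hVS _ q.2)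
    · constructor
      · rintro ⟨⟨W, hW, hd⟩, -⟩
        right
        by_cases hvV : v ∈ V
        · have h1 : ordp p (Q v) a ≠ 0 := fun h ↦ hd ((hV v hvV W hW).2 h)
          exact ⟨⟨(v, Units.mk0 _ h1), hvV⟩, (hb _).2 rfl, rfl⟩
        · exact absurd (hO v hvS hvV W hW) hd
      · rintro (⟨h, -⟩ | ⟨q, hq, rfl⟩)
        · exact absurd h hvS
        · refine ⟨⟨Q q.1.1, hQ _ q.2, fun h ↦ ?_⟩, fun h ↦ hvS (hS₀ h)⟩
          have h1 := (hV _ q.2 _ (hQ _ q.2)).1 h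
          rw [(hb q).1 hq] at h1
          exact q.1.2.ne_zero h1
  have hdisj : Disjoint A (B : Set _) := by
    rw [Set.disjoint_left]
    rintro v ⟨hv, -⟩ hv'
    simp only [hB, Finset.coe_image, Set.mem_image, Finset.mem_coe] at hv'
    obtain ⟨q, -, rfl⟩ := hv'
    exact hVS _ q.2 hv
  have e1 : condS K S₀ (clp p a) =
      ∏ᶠ v ∈ {v : HeightOneSpectrum (𝓞 K) | ValC (clp p a) v ∧ v ∉ S₀}, Ideal.absNorm v.asIdeal := rfl
  have e3 : e (clp p a) = e (clp p aτ) := by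
    refine he a aτ ha hτ (locS_mono ?_ hloc)
    rintro W ⟨v, hv, hW⟩
    exact ⟨v, hS₀ hv, hW⟩
  rw [hfe, e1, e3, hset, finprod_mem_union hdisj hAf B.finite_toSet, finprod_mem_coe_finset, hB,
    Finset.prod_image hinj]
  ring

end Pool.Agent.Helper91.PW
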