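import Pool.Agent.Helper42.PW.Goals1
import Pool.Agent.Helper42.PB.SEL
import Pool.Agent.Helper42.RD.VAL

/-!
# Project PW, packet N_DNS: primes with trivial decomposition group
-/

set_option autoImplicit false

namespace Pool.Agent.Helper91.PW

open NumberField Polynomial Module IsDedekindDomain
open Pool.Agent.Helper51.RP Pool.Agent.Helper42.RD Pool.Agent.Helper42.PP Pool.Agent.Helper42.PP1
open Pool.Agent.Helper40.RS (bel absNorm_free)
open Pool.Agent.Helper13.RD (ram_free)
open Pool.Agent.Helper40.RD (bel_of_above valW)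
open Pool.Agent.Helper42.PB (surj_of_norm)

section

variable {F F' : Type} [Field F] [NumberField F] [Field F'] [NumberField F'] [Algebra F F']
  [IsGalois F F'] {W : HeightOneSpectrum (𝓞 F)} {W' : HeightOneSpectrum (𝓞 F')}

theorem val_eq (hA : Above W' W) (hf : FreeP F W') (x : F) :
    W'.valuation F' (algebraMap F F' x) = W.valuation F x := by
  rw [valW, ram_free W' hf, pow_one, bel_of_above hA]

theorem step (hA : Above W' W) (hf : FreeP F W') {y : F'} (hy : y ≠ 0) :
    ∃ x : F, W'.valuation F' (y - algebraMap F F' x) < W'.valuation F' y := by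
  have hval := val_eq hA hf
  have hN : Ideal.absNorm W'.asIdeal = Ideal.absNorm W.asIdeal := by
    rw [absNorm_free (K := F) W' hf, bel_of_above hA]
  have hord : ∀ x : F, ordv W' (algebraMap F F' x) = ordv W x := by
    intro x
    unfold ordv
    rw [hval]
  obtain ⟨π, hπ⟩ := W.valuation_exists_uniformizer F
  have hπ' : ordv W π = 1 := by unfold ordv; rw [hπ]; simp
  have hπ0 : π ≠ 0 := by
    rintro rfl
    rw [map_zero] at hπ
    exact (WithZero.coe_ne_zero hπ.symm)
  set πF : F' := algebraMap F F' π with hπF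
  have hπF0 : πF ≠ 0 := (_root_.map_ne_zero _).2 hπ0
  set k : ℤ := ordv W' y with hk
  have hz0 : y * πF ^ (-k) ≠ 0 := mul_ne_zero hy (zpow_ne_zero _ hπF0)
  have hz : W'.valuation F' (y * πF ^ (-k)) = 1 := by
    rw [← ordv_eq_zero_iff W' hz0, ordv_mul W' hy (zpow_ne_zero _ hπF0), ordv_zpow W' hπF0, hπF,
      hord, hπ']
    omega
  obtain ⟨c, hc, hc1⟩ := exists_int_close W' hz
  obtain ⟨d, hd⟩ := surj_of_norm hA hN c
  set dF : 𝓞 F' := algebraMap (𝓞 F) (𝓞 F') d with hdF
  have hdn : dF ∉ W'.asIdeal := by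
    intro h
    apply hc
    have := W'.asIdeal.add_mem hd h
    rwa [sub_add_cancel] at this
  have h1 := val_div_of_sub_mem W' hdn hd
  have hdF0 : ((dF : 𝓞 F') : F') ≠ 0 := by
    intro h
    apply hdn
    have : dF = 0 := by exact_mod_cast h
    rw [this]
    exact W'.asIdeal.zero_mem
  have hcF0 : ((c : 𝓞 F') : F') ≠ 0 := by
    intro h
    apply hc
    have : c = 0 := by exact_mod_cast h
    rw [this]
    exact W'.asIdeal.zero_mem
  have h2 : W'.valuation F' (((dF : 𝓞 F') : F') / (y * πF ^ (-k)) - 1) < 1 := by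
    have h3 := val_mul_sub W' (val_inv_sub W' h1) hc1
    have e : ((c : F') / (dF : F'))⁻¹ * ((c : F') / (y * πF ^ (-k))) =
        (dF : F') / (y * πF ^ (-k)) := by
      field_simp
    rwa [e] at h3
  refine ⟨(d : F) * π ^ k, ?_⟩
  have e1 : algebraMap F F' ((d : F) * π ^ k) = (dF : F') * πF ^ k := by
    have e2 : ((dF : 𝓞 F') : F') = algebraMap F F' (d : F) := rfl
    rw [map_mul, map_zpow₀, ← hπF, e2]
  have e3 : y - algebraMap F F' ((d : F) * π ^ k) =
      -(y * (((dF : 𝓞 F') : F') / (y * πF ^ (-k)) - 1)) := by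
    rw [e1, zpow_neg]
    have : πF ^ k ≠ 0 := zpow_ne_zero _ hπF0
    field_simp
    ring
  rw [e3, Valuation.map_neg, map_mul]
  have hv0 : (0 : WithZero (Multiplicative ℤ)) < W'.valuation F' y :=
    zero_lt_iff.2 ((Valuation.ne_zero_iff _).2 hy)
  calc W'.valuation F' y * _ < W'.valuation F' y * 1 := by gcongr
    _ = _ := mul_one _

theorem dense (hA : Above W' W) (hf : FreeP F W') (y : F') (N : ℕ) : ∃ x : F,
    W'.valuation F' (y - algebraMap F F' x) ≤ WithZero.exp (-(N : ℤ)) := by
  -- by induction: for every `n` there is `x` with value at most `exp (m - n)`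
  by_cases hy : y = 0
  · exact ⟨0, by rw [map_zero, sub_zero, hy, map_zero]; exact zero_le⟩
  have hv0 : W'.valuation F' y ≠ 0 := (Valuation.ne_zero_iff _).2 hy
  set m : ℤ := WithZero.log (W'.valuation F' y) with hm
  have key : ∀ n : ℕ, ∃ x : F,
      W'.valuation F' (y - algebraMap F F' x) ≤ WithZero.exp (m - n) := by
    intro n
    induction n with
    | zero =>
      refine ⟨0, ?_⟩
      rw [map_zero, sub_zero, Nat.cast_zero, sub_zero, hm, WithZero.exp_log hv0]
    | succ n ih =>
      obtain ⟨x, hx⟩ := ih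
      by_cases h0 : y - algebraMap F F' x = 0
      · exact ⟨x, by rw [h0, map_zero]; exact zero_le⟩
      · obtain ⟨x', hx'⟩ := step hA hf h0
        refine ⟨x + x', ?_⟩
        have e : y - algebraMap F F' (x + x') = y - algebraMap F F' x - algebraMap F F' x' := by
          rw [map_add]; ring
        rw [e]
        by_cases h1 : y - algebraMap F F' x - algebraMap F F' x' = 0
        · rw [h1, map_zero]; exact zero_le
        have hv1 : W'.valuation F' (y - algebraMap F F' x - algebraMap F F' x') ≠ 0 :=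
          (Valuation.ne_zero_iff _).2 h1
        have h3 := hx'.trans_le hx
        rw [← WithZero.exp_log hv1, WithZero.exp_lt_exp] at h3
        rw [← WithZero.exp_log hv1, WithZero.exp_le_exp]
        push_cast
        omega
  obtain ⟨x, hx⟩ := key (m + N).toNat
  refine ⟨x, hx.trans ?_⟩
  rw [WithZero.exp_le_exp]
  omega

end

/-- N_DNS. -/
theorem n_dns : Pool.Agent.Helper42.PW.N_DNS := by
  intro F F' _ _ _ _ _ _ W W' hA hf
  exact ⟨val_eq hA hf, dense hA hf⟩

end Pool.Agent.Helper91.PW
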