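import Pool.Agent.Helper42.PW.Goals3
import Pool.Agent.Helper58.PPB.BNTV

/-!
# Project PW, packet W_NOT: no torsion
-/

set_option autoImplicit false

namespace Pool.Agent.Helper91.PW

open Polynomial
open Pool.Agent.Helper51.SigLeo
open Pool.Agent.Helper51.RP
open Pool.Agent.Helper77.RL (NoTor)
open Pool.Agent.Helper22.RP (io)

theorem w_not : Pool.Agent.Helper42.PW.W_NOT := by
  intro p hpF L H Ω _ _ _ _ _ δ' P ζ hcase τ g a t r hnorm hroots hζr hg
  have hp : p.Prime := hpF.out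
  obtain ⟨Φ, hz, hroot, hmap, hirr⟩ : ∃ Φ : ℤ_[p][X], ‖ζ‖ ≤ 1 ∧
      eval₂ (io p ℂ_[p]) ζ Φ = 0 ∧ P = Φ.map PadicInt.toZMod ∧ Irreducible P := by
    rcases hcase with ⟨m, Φ, hPhi⟩ | ⟨hP, hζ⟩
    · refine ⟨Φ, ?_, hPhi.root, hPhi.map, hPhi.irr⟩
      have hm : m ≠ 0 := by
        have := hPhi.one_lt
        omega
      have h1 : ‖ζ‖ ^ m = 1 := by
        rw [← norm_pow, hPhi.prim.pow_eq_one, norm_one]
      exact ((pow_eq_one_iff_of_nonneg (norm_nonneg _) hm).1 h1).le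
    · refine ⟨X - 1, ?_, ?_, ?_, ?_⟩
      · rw [hζ, norm_one]
      · rw [eval₂_sub, eval₂_X, eval₂_one, hζ, sub_self]
      · rw [Polynomial.map_sub, map_X, Polynomial.map_one, hP]
      · rw [hP, ← C_1]
        exact irreducible_X_sub_C _
  have hndvd : ¬ P ∣ X ^ t - C ((r : ZMod p)) := by
    intro hdvd
    have h1 := Pool.Agent.Helper58.PPB.small hz hroot hmap (X ^ t - C (r : ℤ_[p])) (by
      rw [Polynomial.map_sub, Polynomial.map_pow, map_X, map_C, map_natCast]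
      exact hdvd)
    rw [eval₂_sub, eval₂_pow, eval₂_X, eval₂_C, map_natCast, hζr] at h1
    exact lt_irrefl _ h1
  have hcop : IsCoprime P (X ^ t - C ((r : ZMod p))) := (Irreducible.coprime_iff_not_dvd hirr).2 hndvd
  have hn1 : ∀ (n : ℕ) (x : Ω), ‖τ (g^[n] x)‖ = ‖τ x‖ := by
    intro n
    induction n with
    | zero => intro x; rfl
    | succ n ih => intro x; rw [Function.iterate_succ_apply', hnorm, ih]
  have hn2 : ∀ (n : ℕ) (ξ : Ω), ξ ^ p = 1 → g^[n] ξ = ξ ^ (r ^ n) := by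
    intro n
    induction n with
    | zero => intro ξ _; rw [Function.iterate_zero_apply, pow_zero, pow_one]
    | succ n ih =>
      intro ξ hξ
      rw [Function.iterate_succ_apply', ih ξ hξ, map_pow, hroots ξ hξ, ← pow_mul, pow_succ']
  refine ⟨g ^ (p ^ a), t * p ^ a, r ^ (p ^ a), ?_, ?_, ?_, ?_⟩
  · intro x
    rw [RingHom.coe_pow]
    exact hn1 _ x
  · intro x
    rw [RingHom.coe_pow]
    exact hg x
  · intro ξ hξ
    rw [RingHom.coe_pow]
    exact hn2 _ ξ hξ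
  · have e : (X ^ (t * p ^ a) - C (((r ^ p ^ a : ℕ)) : ZMod p) : (ZMod p)[X]) =
        (X ^ t - C ((r : ZMod p))) ^ p ^ a := by
      rw [sub_pow_char_pow, ← pow_mul, ← C_pow]
      push_cast
      rfl
    rw [e]
    exact hcop.pow_right

end Pool.Agent.Helper91.PW
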